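import Pool.Agent.BEG.Stmts

/-!
# Squad BEG, row MAK: the main theorem with values in the subalgebra
-/

set_option autoImplicit false

namespace Pool.Agent.BEG.H59

open Set Filter Topology MeasureTheory
open scoped InnerProductSpace ENNReal
open Pool.Agent.BE01 Pool.Agent.BEL Pool.Agent.BEF Pool.Agent.BEN Pool.Agent.BEH

noncomputable section

theorem mak_fin {d : ℕ} {Ω : Set (En d)} (h : Dom Ω) : IsFiniteMeasure (mu Ω) := by
  refine ⟨?_⟩
  rw [mu, Measure.restrict_apply_univ]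
  exact h.2.1.measure_lt_top

/-- powers in `X` -/
theorem mak_pow {T : Type} [MeasurableSpace T] {μ : Measure T} {X : Type} [NormedCommRing X]
    [NormedAlgebra ℝ X] {W : Wx X (Lp ℝ 2 μ)} (hX : Xok W) (x : X) (n : ℕ) :
    W.e (x ^ (n + 1)) =ᵐ[μ] fun z => W.e x z ^ (n + 1) := by
  induction n with
  | zero => simp
  | succ n ih =>
    rw [pow_succ]
    filter_upwards [hX.mul (x ^ (n + 1)) x, ih] with z h1 h2
    rw [h1, h2]
    ring

/-- positivity -/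
theorem mak_pos {T : Type} [MeasurableSpace T] {μ : Measure T} [IsFiniteMeasure μ] {X : Type}
    [NormedCommRing X] [NormedAlgebra ℝ X] {W : Wx X (Lp ℝ 2 μ)} (hX : Xok W) (p : ℕ) (x : X)
    (hx : x ≠ 0) : 0 < ⟪W.e (x ^ (2 * p + 1)), W.e x⟫_ℝ := by
  rw [L2.inner_def]
  have h1 : (fun z => ⟪W.e (x ^ (2 * p + 1)) z, W.e x z⟫_ℝ) =ᵐ[μ]
      fun z => W.e x z ^ (2 * p + 2) := by
    filter_upwards [mak_pow hX x (2 * p)] with z hz
    rw [hz, real_inner_eq_re_inner, RCLike.inner_apply]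
    simp only [conj_trivial, RCLike.re_to_real]
    ring
  rw [integral_congr_ae h1]
  have h0 : (0 : T → ℝ) ≤ fun z => W.e x z ^ (2 * p + 2) := fun z => by
    have : 2 * p + 2 = 2 * (p + 1) := by ring
    show (0 : ℝ) ≤ W.e x z ^ (2 * p + 2)
    rw [this, pow_mul]
    positivity
  have hint : Integrable (fun z => W.e x z ^ (2 * p + 2)) μ := by
    refine (integrable_congr h1).1 ?_
    exact L2.integrable_inner _ _
  rcases (integral_nonneg h0).lt_or_eq with h | h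
  · exact h
  · exfalso
    have h2 := (integral_eq_zero_iff_of_nonneg h0 hint).1 h.symm
    apply hx
    apply W.e_inj
    rw [map_zero]
    rw [Lp.eq_zero_iff_ae_eq_zero]
    filter_upwards [h2] with z hz
    exact pow_eq_zero_iff (by omega) |>.1 hz

theorem mak (hAsn : BEN.AsnStmt) (hTmn : BEN.TmnStmt) (hJst : BEN.JstStmt) (hSol : BEN.SolStmt)
    (hFne : BEN.FneStmt) (hNex : BEN.NexStmt) (hTxk : TxkStmt) : MakStmt := by
  intro d Ω p C0 X X' _ _ _ _ W W' i K Z m ω φ hd hΩ hp hC0 hXok hWok hSbd hR hm hω hE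
  have hfin : IsFiniteMeasure (mu Ω) := mak_fin hΩ
  have hpos : ∀ x : X', x ≠ 0 → 0 < ⟪W'.e (x ^ (2 * p + 1)), W'.e x⟫_ℝ := by
    intro x hx
    rw [← hR.e, ← hR.e, map_pow]
    refine mak_pos hXok p (i x) ?_
    intro h
    apply hx
    have h1 := hR.nrm x
    rw [h, norm_zero] at h1
    exact norm_eq_zero.1 h1.symm
  obtain ⟨β, hβ, hD⟩ := hNex X' (Lp ℝ 2 (mu Ω)) W' m p ω φ hp hE hpos
  set V : ℝ := (mu Ω).real univ with hV
  set V' : ℝ := max 1 V with hV'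
  have hV'1 : 1 ≤ V' := le_max_left _ _
  set C1 : ℝ := V' * (2 * (1 + C0)) ^ (d + 1) with hC1
  have hC1pos : 0 < C1 := by positivity
  set B : ℝ := max ω (∑ j, ‖φ j‖) + 1 with hB
  have hB1 : ω ≤ max ω (∑ j, ‖φ j‖) := le_max_left _ _
  have hB2 : ∑ j, ‖φ j‖ ≤ max ω (∑ j, ‖φ j‖) := le_max_right _ _
  have hB0 : 0 < B := by linarith
  obtain ⟨M, hM⟩ := hAsn d p (2 * (2 * p + 1) * C1 * (2 ^ d) ^ (2 * p) * V' ^ (2 * p)) B β hp
    (by positivity) hB0 hβ
  refine ⟨M, fun hSlx a ha => ?_⟩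
  obtain ⟨A, L, hnm, hCu, hpr⟩ := hJst (En d) (mu Ω) d V X W (by omega) le_rfl hXok
  obtain ⟨K', hK, hKpr⟩ := hSol (En d) (mu Ω) d V C0 X W A L hd le_rfl hC0 hSbd hCu hpr
  obtain ⟨k, t1, b, N1, c, C, w, r, g, hk, hkb, hT⟩ :=
    hM X' (Lp ℝ 2 (mu Ω)) W' m a ω φ hm ha hω (by linarith) (by linarith) hE hD hSlx
  have hT' := hTxk X X' (Lp ℝ 2 (mu Ω)) W W' i K d p a k t1 b N1 c C w r g hR hT
  have hSlu : Slu W p a := by
    apply hTmn X (Lp ℝ 2 (mu Ω)) (Jt d (mu Ω)) W d p A V' C1 K' L a k t1 b N1 c C _ _ _ hK hKpr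
      hd hp ha hC1pos (zero_le_one.trans hV'1) hk _ hT'
    rw [hnm]
    exact hkb
  exact hFne d Ω X W Z p a hΩ hp ha hXok hWok hSlu

end

end Pool.Agent.BEG.H59
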